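import Pool.Agent.T2H62.Tup

/-!
# Isolated Chen twins in all intervals, in narrow progressions

For every `L` there is a `C` such that, for all large `n`, there is a prime `p` with `n + 4 < p < 2 ^ (n + 4)` such that
`p + 2` is a product of at most two primes and every other integer at distance at most `L` from `p` has a prime factor
at most `C`. The number of these `p` in `(A, B]` has the right order of magnitude when `B - A` is at least a constant
times `B`, and almost all of them are covered by disjoint monochromatic narrow progressions of such `p`.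
-/

set_option autoImplicit false

namespace Pool.Agent.Results.MP_b51559_nt.ChenIsolatedTwins

open Finset Filter
open Pool.Agent.T2H62.TU

/-- `v > 1` is a product of at most `r` primes, all of them larger than `y` -/
def AlmostPrime (r : ℕ) (y : ℝ) (v : ℕ) : Prop :=
  1 < v ∧ v.primeFactorsList.length ≤ r ∧ ∀ q : ℕ, q.Prime → q ∣ v → y < q

/-- every integer `p + d`, `|d| ≤ L`, `d ≠ 0, 2`, has a prime factor at most `C` -/
def Isolated (L C p : ℕ) : Prop :=
  ∀ d : ℤ, |d| ≤ L → d ≠ 0 → d ≠ 2 → ∃ q : ℕ, q.Prime ∧ q ≤ C ∧ (q : ℤ) ∣ (p : ℤ) + d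

open Classical in
/-- the primes `p` in `(A, B]` such that `p + 2` is a product of at most two primes `> X ^ (1/9)`, `p` and all the prime
factors of `p + 2` (at most `t`) are `> X ^ (1/t)`, and `p`, `p + 2` are isolated -/
noncomputable def ChenTwins (L C t X A B : ℕ) : Finset ℕ :=
  (Ioc A B).filter (fun p : ℕ => p.Prime ∧ AlmostPrime 2 ((X : ℝ) ^ (1 / 9 : ℝ)) (p + 2) ∧
    AlmostPrime t ((X : ℝ) ^ (1 / (t : ℝ))) p ∧ AlmostPrime t ((X : ℝ) ^ (1 / (t : ℝ))) (p + 2) ∧ Isolated L C p)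

/-- the terms `a, a + d, ..., a + (s - 1) d` of the progression `z = (a, d)` -/
def terms (s : ℕ) (z : ℕ × ℕ) : Finset ℕ := (range s).image (fun i => z.1 + i * z.2)

theorem result (L : ℕ) : ∃ C : ℕ,
    -- the question with `p + 2` a product of at most two primes, for all large `n`, isolated
    (∀ᶠ n : ℕ in atTop, ∃ p : ℕ, n + 4 < p ∧ p < 2 ^ (n + 4) ∧ p.Prime ∧ (p + 2).primeFactorsList.length ≤ 2 ∧
      Isolated L C p) ∧
    -- the number of the `p` in intervals, and coverings by narrow progressions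
    ∃ t : ℕ, 1 ≤ t ∧ ∃ κ : ℝ, 0 < κ ∧ ∀ (s r : ℕ) (θ δ : ℝ), 1 ≤ s → 0 < θ → 0 < δ → ∃ b X₀ : ℕ, ∀ X : ℕ, X₀ ≤ X →
      ∀ A B : ℕ, B ≤ X → θ * X ≤ (B : ℝ) - A →
        κ * ((B : ℝ) - A) / Real.log X ^ 2 ≤ ((ChenTwins L C t X A B).card : ℝ) ∧
        ∀ χ : ℕ → Fin r, ∃ P : Finset (ℕ × ℕ),
          (∀ z ∈ P, 1 ≤ z.2 ∧ (z.2 : ℝ) ≤ Real.log X ^ b ∧
            ∀ l < s, z.1 + l * z.2 ∈ ChenTwins L C t X A B ∧ χ (z.1 + l * z.2) = χ z.1) ∧
          (P : Set (ℕ × ℕ)).PairwiseDisjoint (terms s) ∧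
          (((ChenTwins L C t X A B \ P.biUnion (terms s)).card : ℕ) : ℝ) ≤ δ * ((B : ℝ) - A) / Real.log X ^ 2 := by
  classical
  obtain ⟨W, hW⟩ : ∃ W : Finset ℤ, W = (Icc (-(L : ℤ)) L).filter (fun d => d ≠ 0 ∧ d ≠ 2) := ⟨_, rfl⟩
  obtain ⟨T, hT⟩ : ∃ T : Finset ℤ, T = {0, 2} := ⟨_, rfl⟩
  have hTc : T.card = 2 := by rw [hT]; rfl
  have hadm : AdmT 1 T := by
    intro p hp
    rcases Nat.lt_or_ge p 3 with h | h
    · refine ⟨1, fun d hd hdv => ?_⟩
      have hp2 : p = 2 := by have := hp.two_le; omega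
      subst hp2
      rw [hT, mem_insert, mem_singleton] at hd
      rcases hd with rfl | rfl <;> omega
    · refine ⟨-1, fun d hd hdv => ?_⟩
      rw [hT, mem_insert, mem_singleton] at hd
      have hp1 : ¬ (p : ℤ) ∣ 1 := by
        intro h1
        have := Int.le_of_dvd one_pos h1
        omega
      rcases hd with rfl | rfl
      · apply hp1
        have h2 := (dvd_neg (a := (p : ℤ))).2 hdv
        simpa using h2
      · apply hp1
        have h2 : ((1 : ℕ) : ℤ) * (-1) + 2 = 1 := by norm_num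
        rwa [h2] at hdv
  have hTW : ∀ w ∈ W, w ∉ T := by
    intro w hw
    rw [hW, mem_filter] at hw
    rw [hT, mem_insert, mem_singleton]
    rintro (h | h)
    · exact hw.2.1 h
    · exact hw.2.2 h
  obtain ⟨C, t, ht, κ, hκ, H⟩ := chen 1 le_rfl hadm hTW 0 2 (by rw [hT]; simp) (by rw [hT]; simp) (by norm_num)
  rw [hTc] at H
  have hal : ∀ (r : ℕ) (y : ℝ) (v : ℕ), Pool.Agent.X32.Uni.Almost r y (v : ℤ) ↔ AlmostPrime r y v := by
    intro r y v
    unfold Pool.Agent.X32.Uni.Almost AlmostPrime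
    rw [Nat.abs_cast, Int.natAbs_natCast]
    constructor
    · rintro ⟨h1, h2, h3⟩
      exact ⟨by exact_mod_cast h1, h2, fun q hq hd => h3 q hq (Int.natCast_dvd_natCast.2 hd)⟩
    · rintro ⟨h1, h2, h3⟩
      exact ⟨by exact_mod_cast h1, h2, fun q hq hd => h3 q hq (Int.natCast_dvd_natCast.1 hd)⟩
  have heq : ∀ X A B : ℕ, GC 1 T W 0 2 C t X A B = ChenTwins L C t X A B := by
    intro X A B
    unfold GC ChenTwins
    apply filter_congr
    intro p _
    have c0 : ((1 : ℕ) : ℤ) * (p : ℤ) + 0 = ((p : ℕ) : ℤ) := by push_cast; ring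
    have c2 : ((1 : ℕ) : ℤ) * (p : ℤ) + 2 = ((p + 2 : ℕ) : ℤ) := by push_cast; ring
    rw [c0, c2, Int.natAbs_natCast, hal]
    refine and_congr_right fun _ => and_congr_right fun _ => ?_
    have h1 : (∀ h ∈ T, Pool.Agent.X32.Uni.Almost t ((X : ℝ) ^ (1 / (t : ℝ))) (((1 : ℕ) : ℤ) * (p : ℤ) + h)) ↔
        AlmostPrime t ((X : ℝ) ^ (1 / (t : ℝ))) p ∧ AlmostPrime t ((X : ℝ) ^ (1 / (t : ℝ))) (p + 2) := by
      rw [hT]
      simp only [mem_insert, mem_singleton, forall_eq_or_imp, forall_eq]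
      rw [c0, c2, hal, hal]
    have h2 : (∀ w ∈ W, ∃ q : ℕ, q.Prime ∧ q ≤ C ∧ (q : ℤ) ∣ ((1 : ℕ) : ℤ) * (p : ℤ) + w) ↔ Isolated L C p := by
      unfold Isolated
      have c1 : ∀ w : ℤ, ((1 : ℕ) : ℤ) * (p : ℤ) + w = (p : ℤ) + w := fun w => by push_cast; ring
      simp only [c1]
      constructor
      · intro h d h3 h4 h5
        refine h d ?_
        rw [hW, mem_filter, mem_Icc]
        exact ⟨abs_le.1 h3, h4, h5⟩
      · intro h w hw
        rw [hW, mem_filter, mem_Icc] at hw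
        exact h w (abs_le.2 hw.1) hw.2.1 hw.2.2
    rw [h1, h2]
    tauto
  simp only [heq] at H
  refine ⟨C, ?_, t, ht, κ, hκ, H⟩
  obtain ⟨b, X₀, H1⟩ := H 1 1 (1 / 4) 1 le_rfl (by norm_num) one_pos
  filter_upwards [eventually_ge_atTop (X₀ + 4)] with n hn
  have h2n : ∀ j : ℕ, 8 ≤ j → 4 * j < 2 ^ j := by
    intro j hj
    induction j, hj using Nat.le_induction with
    | base => norm_num
    | succ j hj ih => rw [pow_succ]; omega
  have h3 := h2n (n + 4) (by omega)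
  obtain ⟨X, hX⟩ : ∃ X, X = 2 ^ (n + 4) - 1 := ⟨_, rfl⟩
  have hXn : 4 * (n + 4) ≤ X := by omega
  have h4 := (H1 X (by omega) (n + 4) X le_rfl (by
    have h5 : 4 * ((n + 4 : ℕ) : ℝ) ≤ X := by exact_mod_cast hXn
    linarith)).1
  have hX0 : (0 : ℝ) < X := by exact_mod_cast (by omega : 0 < X)
  have hlog : 0 < Real.log (X : ℝ) := Real.log_pos (by exact_mod_cast (by omega : 1 < X))
  have h5 : (0 : ℝ) < (ChenTwins L C t X (n + 4) X).card := by
    refine lt_of_lt_of_le ?_ h4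
    have h6 : 4 * ((n + 4 : ℕ) : ℝ) ≤ X := by exact_mod_cast hXn
    have h7 : 0 < (X : ℝ) - ((n + 4 : ℕ) : ℝ) := by
      have : (0 : ℝ) ≤ ((n + 4 : ℕ) : ℝ) := Nat.cast_nonneg _
      linarith
    positivity
  have h6 : 0 < (ChenTwins L C t X (n + 4) X).card := by exact_mod_cast h5
  obtain ⟨p, hp⟩ := card_pos.1 h6
  unfold ChenTwins at hp
  rw [mem_filter, mem_Ioc] at hp
  refine ⟨p, hp.1.1, ?_, hp.2.1, hp.2.2.1.2.1, hp.2.2.2.2.2⟩
  have h7 := hp.1.2
  have h8 : 0 < 2 ^ (n + 4) := by positivity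
  omega

end Pool.Agent.Results.MP_b51559_nt.ChenIsolatedTwins
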