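import Pool.Agent.T2H22.DR.Syn

/-!
# Primes `P` with `P + h` prime, for almost all even `h`: consecutive primes and prescribed indices

Let `p 1 = 2, p 2 = 3, …` be the primes. A rule selects from every run `p (i + 1), …, p (i + K)` of `K` consecutive primes
at least `k` of them. For almost all even `h` there are many runs of `r` consecutive primes, of bounded diameter, all of
whose elements are `P + h` with selected primes `P`. In particular, for arbitrary sets `𝒳`, `𝒴` of indices which meet all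
intervals of some fixed length, there are primes `P = p u`, `u ∈ 𝒳`, with `P + h = p v`, `v ∈ 𝒴`, and both primes can be
found inside of the interval `(n + 4, 2 ^ (n + 4))` of the question.
-/

set_option autoImplicit false

namespace Pool.Agent.Results.MP_b51559_nt.ConsecutivePrimes

open Finset

/-- the `x`-th prime, `p 1 = 2` -/
noncomputable def p (x : ℕ) : ℕ := Nat.nth Nat.Prime (x - 1)

/-- the consecutive primes `p (i' + 1), …, p (i' + r)` have diameter at most `C`, and they all are `P + h` for selected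
primes `P = p (i + j)`, `j ∈ σ i`, of one run of `K` consecutive primes in `[h/6, h]` of diameter at most `C` -/
def GoodRun (σ : ℕ → Finset ℕ) (K r C h i' : ℕ) : Prop :=
  p (i' + r) ≤ p (i' + 1) + C ∧ ∃ i : ℕ, h / 6 ≤ p (i + 1) ∧ p (i + K) ≤ h ∧ p (i + K) ≤ p (i + 1) + C ∧
    ∀ j' : ℕ, 1 ≤ j' → j' ≤ r → ∃ j ∈ σ i, p (i + j) + h = p (i' + j')

open Classical in
/-- the number of these runs of `r` consecutive primes -/
noncomputable def goodRuns (σ : ℕ → Finset ℕ) (K r C h : ℕ) : ℕ :=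
  ((range (2 * h)).filter (fun i' => GoodRun σ K r C h i')).card

open Classical in
/-- the number of the `P ∈ [y, y + C]` with `P = p u` and `P + h = p v` for some `u ∈ 𝒳` and `v ∈ 𝒴` -/
noncomputable def pairs (𝒳 𝒴 : Set ℕ) (C h y : ℕ) : ℕ :=
  ((Icc y (y + C)).filter (fun P => (∃ u ∈ 𝒳, 1 ≤ u ∧ P = p u) ∧ ∃ v ∈ 𝒴, 1 ≤ v ∧ P + h = p v)).card

open Classical in
/-- **Consecutive primes and prescribed indices, for almost all differences.** (1) For every `r ≥ 1` there is `k` such that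
for every `K ≥ k` there are `C` and `D` such that for every rule `σ` which selects at least `k` of the `K` indices
`i + 1, …, i + K`, for each `i`, the following holds for almost all even `h`, uniformly in `σ`. At least
`h / (log h) ^ D` runs `p (i' + 1), …, p (i' + r)` of consecutive primes have diameter at most `C`, and they all are
`P + h` for selected primes `P` of one run of `K` consecutive primes in `[h/6, h]` of diameter at most `C`. (2) For all
`r, m ≥ 1` there is `C` such that for every `ε > 0` there is `M` such that for all sets `𝒳`, `𝒴` of indices which meet every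
block of `m` consecutive indices, all `n` and all `X` with `M (n + 4) ≤ X ≤ 2 ^ (n + 2)`, all but at most `ε X` of the even
`h ≤ X` are such that for some `y` with `n + 4 < y` and `y + C + h < 2 ^ (n + 4)` at least `r` of the `P ∈ [y, y + C]` are
primes `p u`, `u ∈ 𝒳`, with `P + h = p v`, `v ∈ 𝒴`. -/
theorem result (r : ℕ) (hr : 1 ≤ r) :
    (∃ k : ℕ, ∀ K : ℕ, k ≤ K → ∃ C D : ℕ, ∀ ε : ℝ, 0 < ε → ∃ X₀ : ℕ,
      ∀ σ : ℕ → Finset ℕ, (∀ i, σ i ⊆ Icc 1 K ∧ k ≤ (σ i).card) → ∀ X : ℕ, X₀ ≤ X →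
      (((Icc 1 X).filter (fun h : ℕ => Even h ∧
        (goodRuns σ K r C h : ℝ) < h / Real.log h ^ D)).card : ℝ) ≤ ε * X) ∧
    ∀ m : ℕ, 1 ≤ m → ∃ C : ℕ, ∀ ε : ℝ, 0 < ε → ∃ M : ℕ,
      ∀ 𝒳 𝒴 : Set ℕ, (∀ i : ℕ, ∃ x ∈ 𝒳, i < x ∧ x ≤ i + m) → (∀ i : ℕ, ∃ x ∈ 𝒴, i < x ∧ x ≤ i + m) →
      ∀ n X : ℕ, M * (n + 4) ≤ X → X ≤ 2 ^ (n + 2) →
      (((Icc 1 X).filter (fun h : ℕ => Even h ∧
        ¬ ∃ y : ℕ, n + 4 < y ∧ y + C + h < 2 ^ (n + 4) ∧ r ≤ pairs 𝒳 𝒴 C h y)).card : ℝ) ≤ ε * X := by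
  constructor
  · obtain ⟨k, hk, hmain⟩ := Pool.Agent.T2H22.DR.main_RR r hr
    exact ⟨k, hmain⟩
  intro m hm
  obtain ⟨C, D, h⟩ := Pool.Agent.T2H22.DR.main_SS r m hr hm
  refine ⟨C, fun ε hε => ?_⟩
  obtain ⟨X₀, h0⟩ := h (ε / 2) (by positivity)
  refine ⟨max X₀ (max (C + 1) ⌈18 / ε⌉₊), fun 𝒳 𝒴 h𝒳 h𝒴 n X hX1 hX2 => ?_⟩
  set M := max X₀ (max (C + 1) ⌈18 / ε⌉₊) with hM
  have hM1 : X₀ ≤ M := le_max_left _ _
  have hM2 : C + 1 ≤ M := (le_max_left _ _).trans (le_max_right _ _)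
  have hM3 : ⌈18 / ε⌉₊ ≤ M := (le_max_right _ _).trans (le_max_right _ _)
  have hMX : M * 4 ≤ X := (Nat.mul_le_mul_left M (by omega : 4 ≤ n + 4)).trans hX1
  have h1 := h0 𝒳 𝒴 h𝒳 h𝒴 X (by omega)
  have hsub : ((Icc 1 X).filter (fun h : ℕ => Even h ∧
        ¬ ∃ y : ℕ, n + 4 < y ∧ y + C + h < 2 ^ (n + 4) ∧ r ≤ pairs 𝒳 𝒴 C h y)) ⊆
      Icc 1 (9 * (n + 4)) ∪ (Icc 1 X).filter (fun h : ℕ => Even h ∧
        (Pool.Agent.T2H22.DR.clD 𝒳 𝒴 r C h : ℝ) < h / Real.log h ^ D) := by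
    intro h hh
    rw [mem_filter, mem_Icc] at hh
    obtain ⟨⟨hh1, hh2⟩, hh3, hh4⟩ := hh
    rw [mem_union, mem_Icc, mem_filter, mem_Icc]
    by_cases hs : h ≤ 9 * (n + 4)
    · exact Or.inl ⟨hh1, hs⟩
    · right
      refine ⟨⟨hh1, hh2⟩, hh3, ?_⟩
      by_contra hcon
      push Not at hcon hh4
      have hlog : 0 < Real.log (h : ℝ) := Real.log_pos (by
        have : 1 < h := by omega
        exact_mod_cast this)
      have hpos : (0 : ℝ) < h / Real.log h ^ D := by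
        have : (0 : ℝ) < h := by
          have : 0 < h := by omega
          exact_mod_cast this
        positivity
      have h2 : (0 : ℝ) < Pool.Agent.T2H22.DR.clD 𝒳 𝒴 r C h := lt_of_lt_of_le hpos hcon
      have h3 : 0 < Pool.Agent.T2H22.DR.clD 𝒳 𝒴 r C h := by exact_mod_cast h2
      unfold Pool.Agent.T2H22.DR.clD at h3
      obtain ⟨y, hy⟩ := card_pos.1 h3
      rw [mem_filter, mem_Icc] at hy
      obtain ⟨⟨hy1, hy2⟩, hy3⟩ := hy
      have h4 := hh4 y (by omega) (by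
        have e : 2 ^ (n + 4) = 4 * 2 ^ (n + 2) := by
          rw [show n + 4 = (n + 2) + 2 by ring, pow_add]
          ring
        omega)
      have h5 : ((Icc y (y + C)).filter (fun P => ∃ u ∈ 𝒳, ∃ v ∈ 𝒴, 1 ≤ u ∧ 1 ≤ v ∧
          P = Pool.Agent.T2H22.AQ.pr u ∧ P + h = Pool.Agent.T2H22.AQ.pr v)).card ≤ pairs 𝒳 𝒴 C h y := by
        unfold pairs
        apply card_le_card
        intro P hP
        rw [mem_filter] at hP ⊢
        obtain ⟨hP1, u, hu, v, hv, hu1, hv1, e1, e2⟩ := hP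
        exact ⟨hP1, ⟨u, hu, hu1, e1⟩, v, hv, hv1, e2⟩
      omega
  have h2 := (card_le_card hsub).trans (card_union_le _ _)
  rw [Nat.card_Icc, Nat.add_sub_cancel] at h2
  have h3 : (((Icc 1 X).filter (fun h : ℕ => Even h ∧
        ¬ ∃ y : ℕ, n + 4 < y ∧ y + C + h < 2 ^ (n + 4) ∧ r ≤ pairs 𝒳 𝒴 C h y)).card : ℝ) ≤
      (9 * (n + 4) : ℕ) + (((Icc 1 X).filter (fun h : ℕ => Even h ∧
        (Pool.Agent.T2H22.DR.clD 𝒳 𝒴 r C h : ℝ) < h / Real.log h ^ D)).card : ℝ) := by exact_mod_cast h2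
  have h4 : ((9 * (n + 4) : ℕ) : ℝ) ≤ ε / 2 * X := by
    have e1 : 18 / ε ≤ M := (Nat.le_ceil _).trans (by exact_mod_cast hM3)
    rw [div_le_iff₀ hε] at e1
    have e2 : (M : ℝ) * (n + 4) ≤ X := by exact_mod_cast hX1
    have e3 : (0 : ℝ) ≤ (n : ℝ) + 4 := by positivity
    push_cast
    nlinarith
  linarith

end Pool.Agent.Results.MP_b51559_nt.ConsecutivePrimes
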