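import Mathlib
import Pool.Agent.T2H62.MD.U

set_option autoImplicit false

/-! # Twins and tuples of sieved random primes in all short intervals

Random primes: every integer `n` without a prime factor `p ≤ A log n` is chosen with probability
`∏_{p ≤ A log n} (1 - 1/p)⁻¹ / log n` (at most `1`), the other integers are not chosen, and the choices are independent
(`A = 1`: Granville's modification of Cramer's model). Almost surely, the set `R` of the random primes satisfies the
conjecture of Hardy and Littlewood on tuples, with its singular series, uniformly in all intervals `(N, M]`,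
`N + N ^ ε ≤ M ≤ 2 N`. In particular, for all large `n` there is a twin `r`, `r + 2` of random primes with
`n + 4 < r < 2 ^ (n + 4)`. -/

namespace Pool.Agent.Results.MP_b51559_nt.SievedRandomTuples

open Finset Filter Topology MeasureTheory ProbabilityTheory

open scoped Classical in
/-- the probability that `n` is a random prime -/
noncomputable def prob (A : ℝ) (n : ℕ) : ℝ :=
  if ∀ p : ℕ, p.Prime → (p : ℝ) ≤ A * Real.log n → ¬ p ∣ n then
    min 1 ((∏ p ∈ (Icc 1 ⌊A * Real.log n⌋₊).filter Nat.Prime, (1 - (p : ℝ)⁻¹)⁻¹) / Real.log n) else 0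

/-- the events `S n` (`n` is a random prime) are independent with the probabilities `prob A n` -/
def Model (A : ℝ) {Ω : Type*} [MeasurableSpace Ω] (μ : Measure Ω) (S : ℕ → Set Ω) : Prop :=
  IsProbabilityMeasure μ ∧ (∀ n, MeasurableSet (S n)) ∧ iIndepSet S μ ∧
    ∀ n, μ (S n) = ENNReal.ofReal (prob A n)

/-- the number of the residue classes modulo `p` met by `T` -/
def classes (T : Finset ℕ) (p : ℕ) : ℕ := (T.image (fun h => h % p)).card

/-- the partial product of the singular series of `T` over the primes `p ≤ z` -/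
noncomputable def singular (T : Finset ℕ) (z : ℕ) : ℝ :=
  ∏ p ∈ (Icc 1 z).filter Nat.Prime, (1 - (classes T p : ℝ) / p) * ((1 - (p : ℝ)⁻¹)⁻¹) ^ T.card

open scoped Classical in
/-- the number of the `n ∈ (N, M]` such that all `n + h`, `h ∈ T`, are random primes -/
noncomputable def tuples {Ω : Type*} (S : ℕ → Set Ω) (ω : Ω) (T : Finset ℕ) (N M : ℕ) : ℕ :=
  ((Ioc N M).filter (fun n => ∀ h ∈ T, ω ∈ S (n + h))).card

theorem result (A : ℝ) (hA : 0 < A) :
    -- the model exists
    (∃ (μ : Measure (ℕ → Bool)) (S : ℕ → Set (ℕ → Bool)), Model A μ S) ∧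
    ∀ (Ω : Type) [MeasurableSpace Ω] (μ : Measure Ω) (S : ℕ → Set Ω), Model A μ S →
      ∀ᵐ ω ∂μ,
        -- the asymptotic formula for all admissible tuples in all short intervals
        (∀ T : Finset ℕ, 0 ∉ T → (∀ p : ℕ, p.Prime → classes T p < p) →
          ∃ s : ℝ, 0 < s ∧ Tendsto (singular T) atTop (𝓝 s) ∧
            ∀ ε δ : ℝ, 0 < ε → 0 < δ → ∀ᶠ N : ℕ in atTop, ∀ M : ℕ, (N : ℝ) + (N : ℝ) ^ ε ≤ M → M ≤ 2 * N →
              |(tuples S ω T N M : ℝ) - s * (((M : ℝ) - N) / Real.log N ^ T.card)| ≤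
                δ * (((M : ℝ) - N) / Real.log N ^ T.card)) ∧
        -- twins of random primes
        ∀ᶠ n : ℕ in atTop, ∃ r : ℕ, n + 4 < r ∧ r < 2 ^ (n + 4) ∧ ω ∈ S r ∧ ω ∈ S (r + 2) := by
  classical
  have hprob : ∀ n, prob A n = Pool.Agent.T2H53.GW.pr A n := fun n => rfl
  refine ⟨?_, ?_⟩
  · obtain ⟨μ, S, h1, h2, h3, h4⟩ := Pool.Agent.T2H53.GW.exists_model (prob A)
      (fun n => by rw [hprob]; exact Pool.Agent.T2H53.GW.pr_nonneg A n)
      (fun n => by rw [hprob]; exact Pool.Agent.T2H53.GW.pr_le_one A n)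
    exact ⟨μ, S, h1, h2, h3, h4⟩
  · rintro Ω _ μ S ⟨hμ, hm, hi, hp⟩
    have hp' : ∀ n, μ.real (S n) = Pool.Agent.T2H53.GW.pr A n := fun n => by
      rw [measureReal_def, hp n, ENNReal.toReal_ofReal (by rw [hprob]; exact Pool.Agent.T2H53.GW.pr_nonneg A n), hprob]
    filter_upwards [Pool.Agent.T2H62.MD.HL_short A hA hm hi hp'] with ω hω
    have hcnt : ∀ (T : Finset ℕ) (N M : ℕ), (tuples S ω T N M : ℝ) =
        Pool.Agent.T2H62.MD.cnt (Ioc N M) (Pool.Agent.T2H62.MD.Fh S T) ω := by
      intro T N M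
      rw [Pool.Agent.T2H62.MD.cnt_eq]
      unfold tuples
      congr 2
      apply filter_congr
      intro n _
      unfold Pool.Agent.T2H62.MD.Fh
      simp
    have hmain : ∀ T : Finset ℕ, 0 ∉ T → (∀ p : ℕ, p.Prime → classes T p < p) →
          ∃ s : ℝ, 0 < s ∧ Tendsto (singular T) atTop (𝓝 s) ∧
            ∀ ε δ : ℝ, 0 < ε → 0 < δ → ∀ᶠ N : ℕ in atTop, ∀ M : ℕ, (N : ℝ) + (N : ℝ) ^ ε ≤ M → M ≤ 2 * N →
              |(tuples S ω T N M : ℝ) - s * (((M : ℝ) - N) / Real.log N ^ T.card)| ≤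
                δ * (((M : ℝ) - N) / Real.log N ^ T.card) := by
      intro T h0 hadm
      have hTy : T ⊆ Icc 1 (∑ h ∈ T, h) := by
        intro h hh
        rw [mem_Icc]
        refine ⟨?_, single_le_sum (f := fun h => h) (fun i _ => Nat.zero_le _) hh⟩
        rcases Nat.eq_zero_or_pos h with h1 | h1
        · rw [h1] at hh
          exact absurd hh h0
        · exact h1
      obtain ⟨s, hs0, hs⟩ := Pool.Agent.T2H62.MD.SS_tendsto T _ hTy hadm
      refine ⟨s, hs0, hs, fun ε δ hε hδ => ?_⟩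
      filter_upwards [hω T h0 hadm s hs ε δ hε hδ] with N hN M hM1 hM2
      rw [hcnt]
      exact hN M hM1 hM2
    refine ⟨hmain, ?_⟩
    -- twins
    obtain ⟨s, hs0, -, h1⟩ := hmain {1, 3} (by decide) (by
      intro p hp2
      unfold classes
      rcases Nat.lt_or_ge p 3 with h | h
      · have : p = 2 := by have := hp2.two_le; omega
        rw [this]
        decide
      · exact lt_of_le_of_lt card_image_le (by simp; omega))
    have h2 := h1 (1 / 2) (s / 2) (by norm_num) (by positivity)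
    have hT : Tendsto (fun n : ℕ => n + 4) atTop atTop := tendsto_add_atTop_nat 4
    filter_upwards [hT.eventually h2, eventually_ge_atTop 8] with n h3 h4
    have hN0 : (0 : ℝ) < ((n + 4 : ℕ) : ℝ) := by positivity
    have hN4 : (4 : ℝ) ≤ ((n + 4 : ℕ) : ℝ) := by push_cast; have : (0 : ℝ) ≤ n := Nat.cast_nonneg _; linarith
    have h5 : ((n + 4 : ℕ) : ℝ) ^ (1 / 2 : ℝ) ≤ ((n + 4 : ℕ) : ℝ) := by
      calc ((n + 4 : ℕ) : ℝ) ^ (1 / 2 : ℝ) ≤ ((n + 4 : ℕ) : ℝ) ^ (1 : ℝ) :=
            Real.rpow_le_rpow_of_exponent_le (by linarith) (by norm_num)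
        _ = ((n + 4 : ℕ) : ℝ) := Real.rpow_one _
    have h6 := h3 (2 * (n + 4)) (by push_cast at h5 ⊢; linarith) le_rfl
    have h7 : 0 < Real.log ((n + 4 : ℕ) : ℝ) := Real.log_pos (by linarith)
    have h8 : 0 < (((2 * (n + 4) : ℕ) : ℝ) - ((n + 4 : ℕ) : ℝ)) / Real.log ((n + 4 : ℕ) : ℝ) ^ ({1, 3} : Finset ℕ).card := by
      apply div_pos _ (by positivity)
      push_cast
      linarith
    have h9 : (0 : ℝ) < tuples S ω {1, 3} (n + 4) (2 * (n + 4)) := by
      have := (abs_le.1 h6).1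
      nlinarith [mul_pos hs0 h8]
    have h10 : 0 < tuples S ω {1, 3} (n + 4) (2 * (n + 4)) := by exact_mod_cast h9
    unfold tuples at h10
    rw [card_pos] at h10
    obtain ⟨m, hm'⟩ := h10
    rw [mem_filter, mem_Ioc] at hm'
    refine ⟨m + 1, by omega, ?_, hm'.2 1 (by simp), hm'.2 3 (by simp)⟩
    have h11 : 2 * (n + 4) + 1 < 2 ^ (n + 4) := by
      have h12 : ∀ j : ℕ, 12 ≤ j → 2 * j + 1 < 2 ^ j := by
        intro j hj
        induction j, hj using Nat.le_induction with
        | base => norm_num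
        | succ j hj ih => rw [pow_succ]; omega
      exact h12 (n + 4) (by omega)
    omega

end Pool.Agent.Results.MP_b51559_nt.SievedRandomTuples
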