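import Mathlib
import Pool.Agent.T2H62.MT.F

set_option autoImplicit false

/-! # The gaps between twins of sieved random primes

Random primes: every integer `n` without a prime factor `p ≤ A log n` is chosen with probability
`∏_{p ≤ A log n} (1 - 1/p)⁻¹ / log n` (at most `1`), the other integers are not chosen, and the choices are independent
(`A = 1`: Granville's modification of Cramer's model). Almost surely, the gaps between the consecutive twins `r`, `r + 2` of
random primes in `(N, 2 N]`, divided by `(log N) ^ 2 / s` with the twin prime constant `s`, have asymptotically the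
exponential distribution, and all their moments converge to those of the exponential distribution. -/

namespace Pool.Agent.Results.MP_b51559_nt.TwinGapMoments

open Finset Filter Topology MeasureTheory ProbabilityTheory

open scoped Classical in
/-- the probability that `n` is a random prime -/
noncomputable def prob (A : ℝ) (n : ℕ) : ℝ :=
  if ∀ p : ℕ, p.Prime → (p : ℝ) ≤ A * Real.log n → ¬ p ∣ n then
    min 1 ((∏ p ∈ (Icc 1 ⌊A * Real.log n⌋₊).filter Nat.Prime, (1 - (p : ℝ)⁻¹)⁻¹) / Real.log n) else 0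

/-- the events `S n` (`n` is a random prime) are independent with the probabilities `prob A n` -/
def Model (A : ℝ) {Ω : Type*} [MeasurableSpace Ω] (μ : Measure Ω) (S : ℕ → Set Ω) : Prop :=
  IsProbabilityMeasure μ ∧ (∀ n, MeasurableSet (S n)) ∧ iIndepSet S μ ∧
    ∀ n, μ (S n) = ENNReal.ofReal (prob A n)

/-- the product over the primes `p ≤ z` of `(1 - 2/p) / (1 - 1/p) ^ 2`, with `2` in place of the factor for `p = 2` -/
noncomputable def twinProduct (z : ℕ) : ℝ :=
  ∏ p ∈ (Icc 1 z).filter Nat.Prime, (1 - (if p = 2 then (1 : ℝ) else 2) / p) * ((1 - (p : ℝ)⁻¹)⁻¹) ^ 2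

/-- the distance of `r` to the next larger element of `R` -/
noncomputable def gap (R : Set ℕ) (r : ℕ) : ℕ := sInf {g : ℕ | 0 < g ∧ r + g ∈ R}

open scoped Classical in
/-- the number of the elements of `R` in `(N, 2 N]` followed by a gap larger than `t` -/
noncomputable def longGaps (R : Set ℕ) (t : ℝ) (N : ℕ) : ℕ :=
  ((Ioc N (2 * N)).filter (fun r => r ∈ R ∧ t < (gap R r : ℝ))).card

open scoped Classical in
/-- the sum of the `k`-th powers of the gaps after the elements of `R` in `(N, 2 N]` -/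
noncomputable def powerSum (R : Set ℕ) (k N : ℕ) : ℝ :=
  ∑ r ∈ (Ioc N (2 * N)).filter (fun r => r ∈ R), (gap R r : ℝ) ^ k

theorem result (A : ℝ) (hA : 0 < A) :
    -- the model exists
    (∃ (μ : Measure (ℕ → Bool)) (S : ℕ → Set (ℕ → Bool)), Model A μ S) ∧
    ∃ s : ℝ, 0 < s ∧ Tendsto twinProduct atTop (𝓝 s) ∧
    ∀ (Ω : Type) [MeasurableSpace Ω] (μ : Measure Ω) (S : ℕ → Set Ω), Model A μ S →
      ∀ᵐ ω ∂μ, ∀ R : Set ℕ, R = {n | ω ∈ S n ∧ ω ∈ S (n + 2)} → R.Infinite ∧
        -- the law of the gaps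
        (∀ lam : ℝ, 0 < lam → Tendsto (fun N : ℕ => (longGaps R (lam * (Real.log N ^ 2 / s)) N : ℝ) / (s * N / Real.log N ^ 2))
          atTop (𝓝 (Real.exp (-lam)))) ∧
        -- the moments of the gaps
        ∀ k : ℕ, Tendsto (fun N : ℕ => powerSum R k N / (s * N / Real.log N ^ 2 * (Real.log N ^ 2 / s) ^ k)) atTop (𝓝 (k.factorial : ℝ)) := by
  classical
  have hprob : ∀ n, prob A n = Pool.Agent.T2H53.GW.pr A n := fun n => rfl
  refine ⟨?_, ?_⟩
  · obtain ⟨μ, S, h1, h2, h3, h4⟩ := Pool.Agent.T2H53.GW.exists_model (prob A)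
      (fun n => by rw [hprob]; exact Pool.Agent.T2H53.GW.pr_nonneg A n)
      (fun n => by rw [hprob]; exact Pool.Agent.T2H53.GW.pr_le_one A n)
    exact ⟨μ, S, h1, h2, h3, h4⟩
  obtain ⟨s, hs, hSG⟩ := Pool.Agent.T2H62.MT.SG_lim
  refine ⟨s, hs, hSG.congr fun z => ?_, ?_⟩
  · rw [Pool.Agent.T2H62.MT.SG_SS]
    unfold Pool.Agent.T2H62.MD.SS twinProduct
    have hc2 : ({1, 3} : Finset ℕ).card = 2 := by decide
    rw [hc2]
    refine prod_congr rfl fun p hp => ?_
    have hpp := (mem_filter.1 hp).2
    have h1 := Pool.Agent.T2H62.ME.nu_pair 1 2 p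
    have h2 : ({1, 1 + 2} : Finset ℕ) = {1, 3} := rfl
    rw [h2] at h1
    rw [h1]
    by_cases h3 : p = 2
    · rw [if_pos h3, if_pos (by rw [h3])]
    · rw [if_neg h3, if_neg (fun h4 => h3 ((Nat.prime_dvd_prime_iff_eq hpp Nat.prime_two).1 h4))]
  · rintro Ω _ μ S ⟨hμ, hm, hi, hp⟩
    have hp' : ∀ n, μ.real (S n) = Pool.Agent.T2H53.GW.pr A n := fun n => by
      rw [measureReal_def, hp n, ENNReal.toReal_ofReal (by rw [hprob]; exact Pool.Agent.T2H53.GW.pr_nonneg A n), hprob]
    filter_upwards [Pool.Agent.T2H62.MT.twin_main hA hm hi hp' s hs hSG] with ω hω R hR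
    obtain ⟨hunb, hlaw, hmom⟩ := hω R (fun n => Classical.propDecidable _) hR
    refine ⟨?_, fun lam hlam => ?_, fun k => ?_⟩
    · rw [Set.infinite_iff_exists_gt]
      intro a
      obtain ⟨n, h1, h2⟩ := hunb a
      exact ⟨n, h2, h1⟩
    · refine (hlaw lam hlam).congr' ?_
      filter_upwards [eventually_ge_atTop 3] with N hN
      have hN0 : (0 : ℝ) < N := by exact_mod_cast (by omega : 0 < N)
      have hl : 0 < Real.log (N : ℝ) := Real.log_pos (by exact_mod_cast (by omega : 1 < N))
      have h2 : Pool.Agent.T2H62.MG.GT R (lam * (Real.log N ^ 2 / s)) N = (longGaps R (lam * (Real.log N ^ 2 / s)) N : ℝ) := by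
        unfold Pool.Agent.T2H62.MG.GT longGaps
        rw [← sum_filter, sum_const, nsmul_eq_mul, mul_one, filter_filter]
        rfl
      rw [h2]
      field_simp
    · refine (hmom k).congr' ?_
      filter_upwards [eventually_ge_atTop 3] with N hN
      have hN0 : (0 : ℝ) < N := by exact_mod_cast (by omega : 0 < N)
      have hl : 0 < Real.log (N : ℝ) := Real.log_pos (by exact_mod_cast (by omega : 1 < N))
      have h2 : (∑ r ∈ (Ioc N (2 * N)).filter (fun r => r ∈ R), ((Pool.Agent.T2H62.MG.gp R r : ℝ) / (Real.log N ^ 2 / s)) ^ k) =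
          powerSum R k N / (Real.log N ^ 2 / s) ^ k := by
        unfold powerSum
        rw [sum_div]
        refine sum_congr ?_ fun r _ => ?_
        · congr
        · rw [div_pow]
          rfl
      rw [h2]
      have h3 : 0 < (Real.log (N : ℝ) ^ 2 / s) ^ k := by positivity
      field_simp

end Pool.Agent.Results.MP_b51559_nt.TwinGapMoments
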